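import Mathlib

/-!
# Lie algebras generated by three elements with cubic relations
-/

namespace Pool.Agent.R893.LA

variable {K L : Type*} [Field K] [CharZero K] [LieRing L] [LieAlgebra K L] (x : Fin 3 → L)

/-- span of the commutators of length at most `n` -/
def F (K : Type*) {L : Type*} [Field K] [LieRing L] [LieAlgebra K L] (x : Fin 3 → L) :
    ℕ → Submodule K L
  | 0 => ⊥
  | (n + 1) => Submodule.span K (Set.range x) ⊔ F K x n ⊔ ⨆ i, (F K x n).map (LieAlgebra.ad K L (x i))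

/-- the main commutators -/
def Y : ℕ → Fin 3 → L
  | 0, _ => 0
  | 1, k => x k
  | (n + 2), k => ⁅x (k + 1), Y (n + 1) (k + 2)⁆

omit [CharZero K] in
lemma F_succ (n : ℕ) : F K x n ≤ F K x (n + 1) := by
  rw [F]; exact le_sup_of_le_left le_sup_right

omit [CharZero K] in
lemma F_mono {m n : ℕ} (h : m ≤ n) : F K x m ≤ F K x n := monotone_nat_of_le_succ (F_succ x) h

omit [CharZero K] in
lemma x_mem (i : Fin 3) (n : ℕ) (hn : 1 ≤ n) : x i ∈ F K x n := by
  apply F_mono x hn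
  rw [F]
  exact Submodule.mem_sup_left (Submodule.mem_sup_left (Submodule.subset_span ⟨i, rfl⟩))

omit [CharZero K] in
lemma ad_mem (i : Fin 3) {n : ℕ} {y : L} (hy : y ∈ F K x n) : ⁅x i, y⁆ ∈ F K x (n + 1) := by
  rw [F]
  apply Submodule.mem_sup_right
  exact Submodule.mem_iSup_of_mem i ⟨y, hy, rfl⟩

omit [CharZero K] in
/-- induction principle -/
lemma F_induction {n : ℕ} {P : L → Prop} (h0 : P 0) (hadd : ∀ a b, P a → P b → P (a + b))
    (hsmul : ∀ (c : K) a, P a → P (c • a)) (hx : ∀ i, P (x i)) (hF : ∀ y ∈ F K x n, P y)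
    (had : ∀ i, ∀ y ∈ F K x n, P ⁅x i, y⁆) {y : L} (hy : y ∈ F K x (n + 1)) : P y := by
  let S : Submodule K L :=
    { carrier := {y | P y}
      add_mem' := by intro a b ha hb; exact hadd a b ha hb
      zero_mem' := h0
      smul_mem' := by intro c a ha; exact hsmul c a ha }
  have : F K x (n + 1) ≤ S := by
    rw [F]
    refine sup_le (sup_le ?_ ?_) (iSup_le ?_)
    · rw [Submodule.span_le]; rintro _ ⟨i, rfl⟩; exact hx i
    · exact hF
    · rintro i _ ⟨y, hy, rfl⟩; exact had i y hy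
  exact this hy

omit [CharZero K] in
lemma lie_mem {p : ℕ} : ∀ {q : ℕ} {u v : L}, u ∈ F K x p → v ∈ F K x q → ⁅u, v⁆ ∈ F K x (p + q) := by
  induction p with
  | zero =>
    intro q u v hu hv
    have : u = 0 := by simpa [F] using hu
    rw [this, zero_lie]; exact Submodule.zero_mem _
  | succ p ih =>
    intro q u v hu hv
    refine F_induction x (P := fun u => ⁅u, v⁆ ∈ F K x (p + 1 + q)) ?_ ?_ ?_ ?_ ?_ ?_ hu
    · rw [zero_lie]; exact Submodule.zero_mem _
    · intro a b ha hb; rw [add_lie]; exact Submodule.add_mem _ ha hb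
    · intro c a ha; rw [smul_lie]; exact Submodule.smul_mem _ c ha
    · intro i; exact F_mono x (by omega) (ad_mem x i hv)
    · intro y hy; exact F_mono x (by omega) (ih hy hv)
    · intro i y hy
      rw [lie_lie]
      apply Submodule.sub_mem
      · exact F_mono x (by omega) (ad_mem x i (ih hy hv))
      · exact F_mono x (by omega) (ih hy (ad_mem x i hv))

omit [CharZero K] in
lemma Y_mem (n : ℕ) : ∀ k, Y x n k ∈ F K x n := by
  induction n using Nat.strong_induction_on with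
  | _ n ih =>
    intro k
    match n, ih with
    | 0, _ => exact Submodule.zero_mem _
    | 1, _ => exact x_mem x k 1 le_rfl
    | (n + 2), ih => exact ad_mem x _ (ih (n + 1) (by omega) _)

lemma Y_one (k : Fin 3) : Y x 1 k = x k := rfl

lemma Y_succ (n : ℕ) (hn : 1 ≤ n) (k : Fin 3) : Y x (n + 1) k = ⁅x (k + 1), Y x n (k + 2)⁆ := by
  obtain ⟨m, rfl⟩ : ∃ m, n = m + 1 := ⟨n - 1, by omega⟩
  rfl

/-- the relation (R), abstractly -/
def Rel (K : Type*) {L : Type*} [Field K] [LieRing L] [LieAlgebra K L] (x : Fin 3 → L) : Prop :=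
  (∀ i, ⁅x i, ⁅x (i + 1), x (i + 2)⁆⁆ ∈ F K x 2) ∧
  ∀ k, ⁅x (k + 1), ⁅x k, x (k + 1)⁆⁆ + ⁅x (k + 2), ⁅x (k + 2), x k⁆⁆ ∈ F K x 2

/-- the statement `S(n)` -/
def St (K : Type*) {L : Type*} [Field K] [LieRing L] [LieAlgebra K L] (x : Fin 3 → L)
    (n : ℕ) : Prop :=
  ∀ p q, 1 ≤ p → 1 ≤ q → p + q = n → ∀ k,
    ⁅Y x p (k + 1), Y x q (k + 2)⁆ - Y x n k ∈ F K x (n - 1) ∧
    ⁅Y x p k, Y x q k⁆ ∈ F K x (n - 1)

lemma fin3a (k : Fin 3) : k + 2 + 1 = k := by revert k; decide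
lemma fin3b (k : Fin 3) : k + 1 + 2 = k := by revert k; decide
lemma fin3c (k : Fin 3) : k + 1 + 1 = k + 2 := by revert k; decide
lemma fin3d (k : Fin 3) : k + 2 + 2 = k + 1 := by revert k; decide

omit [CharZero K] in
lemma St_two : St K x 2 := by
  intro p q hp hq hpq k
  obtain ⟨rfl, rfl⟩ : p = 1 ∧ q = 1 := by omega
  refine ⟨?_, ?_⟩
  · rw [Y_succ x 1 le_rfl, Y_one, sub_self]; exact Submodule.zero_mem _
  · rw [lie_self]; exact Submodule.zero_mem _

omit [CharZero K] in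
lemma St_three (h : Rel K x) : St K x 3 := by
  intro p q hp hq hpq k
  have e2 : ∀ k, Y x 2 k = ⁅x (k + 1), x (k + 2)⁆ := fun k => rfl
  have e3 : ∀ k, Y x 3 k = ⁅x (k + 1), Y x 2 (k + 2)⁆ := fun k => rfl
  have hself : ∀ k, ⁅x k, Y x 2 k⁆ ∈ F K x 2 := fun k => h.1 k
  -- [x_i, y_j] + [x_j, y_i]
  have hsum : ∀ k, ⁅x (k + 1), Y x 2 (k + 2)⁆ + ⁅x (k + 2), Y x 2 (k + 1)⁆ ∈ F K x 2 := by
    intro k
    have := h.2 k
    rw [e2, e2, fin3a, fin3b, fin3c, fin3d]
    exact this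
  rcases (show (p = 1 ∧ q = 2) ∨ (p = 2 ∧ q = 1) by omega) with ⟨rfl, rfl⟩ | ⟨rfl, rfl⟩
  · refine ⟨?_, hself k⟩
    rw [Y_one, e3, sub_self]; exact Submodule.zero_mem _
  · refine ⟨?_, ?_⟩
    · rw [Y_one, e3, ← lie_skew]
      have := hsum k
      have h2 := Submodule.neg_mem _ this
      convert h2 using 1
      abel
    · rw [Y_one, ← lie_skew]
      exact Submodule.neg_mem _ (hself k)

section step

variable {x} {n : ℕ}

omit [CharZero K] in
/-- from `u ≡ v` modulo `F p`, `⁅u, w⁆ ≡ ⁅v, w⁆` modulo `F (p + q)` -/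
lemma lie_congr_left {p q m : ℕ} {u v w : L} (h : u - v ∈ F K x p) (hw : w ∈ F K x q)
    (hm : p + q ≤ m) : ⁅u, w⁆ - ⁅v, w⁆ ∈ F K x m := by
  rw [← sub_lie]; exact F_mono x hm (lie_mem x h hw)

omit [CharZero K] in
lemma lie_congr_right {p q m : ℕ} {u v w : L} (h : u - v ∈ F K x p) (hw : w ∈ F K x q)
    (hm : q + p ≤ m) : ⁅w, u⁆ - ⁅w, v⁆ ∈ F K x m := by
  rw [← lie_sub]; exact F_mono x hm (lie_mem x hw h)

omit [CharZero K] in
/-- the mixed brackets, all but the last -/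
lemma stepA (hn : 3 ≤ n) (ih : ∀ m, 2 ≤ m → m ≤ n → St K x m) (q : ℕ) (hq : 1 ≤ q)
    (hqn : q ≤ n - 1) (k : Fin 3) :
    ⁅Y x q (k + 1), Y x (n + 1 - q) (k + 2)⁆ - Y x (n + 1) k ∈ F K x n := by
  have h1 : ⁅Y x (n - q) k, Y x q (k + 1)⁆ - Y x n (k + 2) ∈ F K x (n - 1) := by
    have := (ih n (by omega) le_rfl (n - q) q (by omega) hq (by omega) (k + 2)).1
    rwa [fin3a, fin3d] at this
  have h2 : ⁅x (k + 1), ⁅Y x (n - q) k, Y x q (k + 1)⁆⁆ - Y x (n + 1) k ∈ F K x n := by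
    rw [Y_succ x n (by omega)]
    exact lie_congr_right h1 (x_mem x (k + 1) 1 le_rfl) (by omega)
  have h3 : ⁅x (k + 1), Y x q (k + 1)⁆ ∈ F K x q := by
    have := (ih (1 + q) (by omega) (by omega) 1 q le_rfl hq rfl (k + 1)).2
    simpa [Y_one] using this
  have h4 : ⁅Y x (n - q) k, ⁅x (k + 1), Y x q (k + 1)⁆⁆ ∈ F K x n :=
    F_mono x (by omega) (lie_mem x (Y_mem x (n - q) k) h3)
  have h5 : ⁅Y x (n - q) k, x (k + 1)⁆ - Y x (n + 1 - q) (k + 2) ∈ F K x (n - q) := by
    have := (ih (n + 1 - q) (by omega) (by omega) (n - q) 1 (by omega) le_rfl (by omega)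
      (k + 2)).1
    rw [fin3a, fin3d, Y_one] at this
    exact F_mono x (by omega) this
  have h6 := lie_congr_left h5 (Y_mem (K := K) x q (k + 1)) (m := n) (by omega)
  have key : ⁅Y x q (k + 1), Y x (n + 1 - q) (k + 2)⁆ - Y x (n + 1) k =
      (⁅x (k + 1), ⁅Y x (n - q) k, Y x q (k + 1)⁆⁆ - Y x (n + 1) k) -
      ⁅Y x (n - q) k, ⁅x (k + 1), Y x q (k + 1)⁆⁆ +
      (⁅⁅Y x (n - q) k, x (k + 1)⁆, Y x q (k + 1)⁆ - ⁅Y x (n + 1 - q) (k + 2), Y x q (k + 1)⁆) := by
    rw [leibniz_lie (x (k + 1)) (Y x (n - q) k) (Y x q (k + 1)),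
      ← lie_skew (x (k + 1)) (Y x (n - q) k), neg_lie,
      ← lie_skew (Y x (n + 1 - q) (k + 2)) (Y x q (k + 1))]
    abel
  rw [key]
  exact Submodule.add_mem _ (Submodule.sub_mem _ h2 h4) h6

omit [CharZero K] in
/-- the last mixed bracket -/
lemma stepA' (hn : 3 ≤ n) (ih : ∀ m, 2 ≤ m → m ≤ n → St K x m) (k : Fin 3) :
    ⁅Y x n (k + 1), x (k + 2)⁆ - Y x (n + 1) k ∈ F K x n := by
  have h1 : ⁅Y x (n - 1) (k + 2), x k⁆ - Y x n (k + 1) ∈ F K x (n - 1) := by
    have := (ih n (by omega) le_rfl (n - 1) 1 (by omega) le_rfl (by omega) (k + 1)).1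
    rwa [fin3b, fin3c, Y_one] at this
  have h2 := lie_congr_left h1 (x_mem (K := K) x (k + 2) 1 le_rfl) (m := n) (by omega)
  have h3 : ⁅x (k + 2), Y x (n - 1) (k + 2)⁆ ∈ F K x (n - 1) := by
    have := (ih n (by omega) (by omega) 1 (n - 1) le_rfl (by omega) (by omega) (k + 2)).2
    simpa [Y_one] using this
  have h4 : ⁅⁅x (k + 2), Y x (n - 1) (k + 2)⁆, x k⁆ ∈ F K x n :=
    F_mono x (by omega) (lie_mem x h3 (x_mem x k 1 le_rfl))
  have h5 := stepA hn ih 2 (by omega) (by omega) k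
  have e : n + 1 - 2 = n - 1 := by omega
  have e2 : Y x 2 (k + 1) = ⁅x (k + 2), x k⁆ := by
    rw [Y_succ x 1 le_rfl, Y_one, fin3b, fin3c]
  rw [e, e2] at h5
  have key : ⁅Y x n (k + 1), x (k + 2)⁆ - Y x (n + 1) k =
      (⁅⁅x (k + 2), x k⁆, Y x (n - 1) (k + 2)⁆ - Y x (n + 1) k) -
      ⁅⁅x (k + 2), Y x (n - 1) (k + 2)⁆, x k⁆ -
      (⁅⁅Y x (n - 1) (k + 2), x k⁆, x (k + 2)⁆ - ⁅Y x n (k + 1), x (k + 2)⁆) := by
    rw [← lie_skew ⁅Y x (n - 1) (k + 2), x k⁆ (x (k + 2)),
      leibniz_lie (x (k + 2)) (Y x (n - 1) (k + 2)) (x k),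
      ← lie_skew (Y x (n - 1) (k + 2)) ⁅x (k + 2), x k⁆]
    abel
  rw [key]
  exact Submodule.sub_mem _ (Submodule.sub_mem _ h5 h4) h2

omit [CharZero K] in
/-- the relation between the diagonal brackets -/
lemma stepC (_hn : 3 ≤ n) (ih : ∀ m, 2 ≤ m → m ≤ n → St K x m) (p a : ℕ) (hp : 1 ≤ p)
    (ha : 1 ≤ a) (hpa : p + a ≤ n) (i : Fin 3) :
    ⁅Y x p i, Y x (n + 1 - p) i⁆ + ⁅Y x a (i + 1), Y x (n + 1 - a) (i + 1)⁆ -
      ⁅Y x (p + a) (i + 2), Y x (n + 1 - (p + a)) (i + 2)⁆ ∈ F K x n := by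
  obtain ⟨m, hm, hm1⟩ : ∃ m, p + a + m = n + 1 ∧ 1 ≤ m := ⟨n + 1 - (p + a), by omega, by omega⟩
  have e1 : n + 1 - p = a + m := by omega
  have e2 : n + 1 - a = p + m := by omega
  have e3 : n + 1 - (p + a) = m := by omega
  rw [e1, e2, e3]
  -- Y_{a+m} i ≡ [Y_a (i+1), Y_m (i+2)]
  have h1 : ⁅Y x a (i + 1), Y x m (i + 2)⁆ - Y x (a + m) i ∈ F K x (a + m - 1) :=
    (ih (a + m) (by omega) (by omega) a m ha hm1 rfl i).1
  have h1' := lie_congr_right h1 (Y_mem (K := K) x p i) (m := n) (by omega)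
  -- [Y_p i, Y_a (i+1)] ≡ Y_{p+a} (i+2)
  have h2 : ⁅Y x p i, Y x a (i + 1)⁆ - Y x (p + a) (i + 2) ∈ F K x (p + a - 1) := by
    have := (ih (p + a) (by omega) (by omega) p a hp ha rfl (i + 2)).1
    rwa [fin3a, fin3d] at this
  have h2' := lie_congr_left h2 (Y_mem (K := K) x m (i + 2)) (m := n) (by omega)
  -- [Y_m (i+2), Y_p i] ≡ Y_{p+m} (i+1)
  have h3 : ⁅Y x m (i + 2), Y x p i⁆ - Y x (p + m) (i + 1) ∈ F K x (p + m - 1) := by
    have := (ih (p + m) (by omega) (by omega) m p hm1 hp (by omega) (i + 1)).1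
    rwa [fin3b, fin3c] at this
  have h3' := lie_congr_right h3 (Y_mem (K := K) x a (i + 1)) (m := n) (by omega)
  have key : ⁅Y x p i, Y x (a + m) i⁆ + ⁅Y x a (i + 1), Y x (p + m) (i + 1)⁆ -
      ⁅Y x (p + a) (i + 2), Y x m (i + 2)⁆ =
      - (⁅Y x p i, ⁅Y x a (i + 1), Y x m (i + 2)⁆⁆ - ⁅Y x p i, Y x (a + m) i⁆) +
      (⁅⁅Y x p i, Y x a (i + 1)⁆, Y x m (i + 2)⁆ - ⁅Y x (p + a) (i + 2), Y x m (i + 2)⁆) -
      (⁅Y x a (i + 1), ⁅Y x m (i + 2), Y x p i⁆⁆ - ⁅Y x a (i + 1), Y x (p + m) (i + 1)⁆) := by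
    rw [leibniz_lie (Y x p i) (Y x a (i + 1)) (Y x m (i + 2)),
      ← lie_skew (Y x p i) (Y x m (i + 2)), lie_neg]
    abel
  rw [key]
  exact Submodule.sub_mem _ (Submodule.add_mem _ (Submodule.neg_mem _ h1') h2') h3'

/-- the diagonal brackets -/
lemma stepB (hn : 3 ≤ n) (ih : ∀ m, 2 ≤ m → m ≤ n → St K x m) (p : ℕ) (hp : 1 ≤ p)
    (hpn : p ≤ n) (i : Fin 3) : ⁅Y x p i, Y x (n + 1 - p) i⁆ ∈ F K x n := by
  -- work in the quotient
  let Q := L ⧸ F K x n
  let π : L →ₗ[K] Q := (F K x n).mkQ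
  let c : Fin 3 → ℕ → Q := fun i p => π ⁅Y x p i, Y x (n + 1 - p) i⁆
  have hker : ∀ z, π z = 0 ↔ z ∈ F K x n := fun z => Submodule.Quotient.mk_eq_zero _
  have hC : ∀ p a, 1 ≤ p → 1 ≤ a → p + a ≤ n → ∀ i, c i p + c (i + 1) a = c (i + 2) (p + a) := by
    intro p a hp ha hpa i
    have := (hker _).2 (stepC hn ih p a hp ha hpa i)
    rw [map_sub, map_add, sub_eq_zero] at this
    exact this
  have hanti : ∀ i, c i n = - c i 1 := by
    intro i
    show π _ = - π _
    rw [← map_neg, lie_skew]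
    congr 3
    omega
  have h2 : ∀ i, (2 : K) • (c i 1 - c (i + 1) 1) = 0 := by
    intro i
    have a1 := hC 1 1 le_rfl le_rfl (by omega) (i + 1)
    have a2 := hC 1 1 le_rfl le_rfl (by omega) (i + 2)
    have a3 := hC 1 2 le_rfl (by omega) (by omega) i
    have a4 := hC 2 1 (by omega) le_rfl (by omega) i
    rw [fin3b, fin3c] at a1
    rw [fin3a, fin3d] at a2
    norm_num at a1 a2 a3 a4
    rw [two_smul]
    have e : c i 2 - c (i + 1) 2 = c i 1 - c (i + 1) 1 := by
      rw [sub_eq_sub_iff_add_eq_add, a4, ← a3]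
    have e' : c i 2 - c (i + 1) 2 = - (c i 1 - c (i + 1) 1) := by
      rw [← a1, ← a2]; abel
    rw [← e]
    nth_rw 1 [e']
    rw [← e]
    exact neg_add_cancel _
  have h1 : ∀ i, c i 1 = c (i + 1) 1 := by
    intro i
    have := (smul_eq_zero.1 (h2 i)).resolve_left two_ne_zero
    exact sub_eq_zero.1 this
  have h1' : ∀ i, c i 1 = c 0 1 := by
    intro i
    fin_cases i
    · rfl
    · exact (h1 0).symm
    · exact ((h1 0).trans (h1 1)).symm
  have hm : ∀ m, 1 ≤ m → m ≤ n → ∀ i, c i m = (m : K) • c 0 1 := by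
    intro m hm
    induction m, hm using Nat.le_induction with
    | base => intro _ i; rw [h1' i, Nat.cast_one, one_smul]
    | succ m hm ihm =>
      intro hmn i
      have := hC m 1 hm le_rfl hmn (i + 1)
      rw [fin3b] at this
      rw [← this, ihm (by omega), h1' (i + 1 + 1)]
      push_cast
      rw [add_smul, one_smul]
  have hz : ((n : K) + 1) • c 0 1 = 0 := by
    rw [add_smul, one_smul, ← hm n (by omega) le_rfl 0, hanti 0]
    abel
  have hc : c 0 1 = 0 := (smul_eq_zero.1 hz).resolve_left (by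
    have : ((n + 1 : ℕ) : K) ≠ 0 := Nat.cast_ne_zero.2 (by omega)
    push_cast at this
    exact this)
  rw [← hker]
  show c i p = 0
  rw [hm p hp hpn, hc, smul_zero]

end step

/-- all the statements -/
theorem St_all (h : Rel K x) (n : ℕ) : 2 ≤ n → St K x n := by
  induction n using Nat.strong_induction_on with
  | _ n ih =>
    intro hn
    rcases (show n = 2 ∨ n = 3 ∨ 4 ≤ n by omega) with rfl | rfl | hn4
    · exact St_two x
    · exact St_three x h
    · obtain ⟨m, rfl⟩ : ∃ m, n = m + 1 := ⟨n - 1, by omega⟩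
      have ih' : ∀ k, 2 ≤ k → k ≤ m → St K x k := fun k h2 hk => ih k (by omega) h2
      intro p q hp hq hpq k
      refine ⟨?_, ?_⟩
      · rcases (show q = 1 ∨ 2 ≤ q by omega) with rfl | hq2
        · obtain rfl : p = m := by omega
          exact stepA' (by omega) ih' k
        · have := stepA (by omega) ih' p hp (by omega) k
          have e : m + 1 - p = q := by omega
          rwa [e] at this
      · have := stepB (by omega) ih' p hp (by omega) k
        have e : m + 1 - p = q := by omega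
        rwa [e] at this

/-- `F (n + 1)` is spanned by `F n` and the three main commutators of length `n + 1` -/
theorem F_step (h : Rel K x) (n : ℕ) {y : L} (hy : y ∈ F K x (n + 1)) :
    ∃ a : Fin 3 → K, y - ∑ k, a k • Y x (n + 1) k ∈ F K x n := by
  induction n generalizing y with
  | zero =>
    refine F_induction x (P := fun y => ∃ a : Fin 3 → K, y - ∑ k, a k • Y x (0 + 1) k ∈ F K x 0)
      ?_ ?_ ?_ ?_ ?_ ?_ hy
    · exact ⟨0, by simp⟩
    · rintro u v ⟨a, ha⟩ ⟨b, hb⟩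
      refine ⟨a + b, ?_⟩
      have := Submodule.add_mem _ ha hb
      convert this using 1
      simp only [Pi.add_apply, add_smul, Finset.sum_add_distrib]
      abel
    · rintro c u ⟨a, ha⟩
      refine ⟨c • a, ?_⟩
      have := Submodule.smul_mem _ c ha
      convert this using 1
      simp only [Pi.smul_apply, smul_eq_mul, mul_smul, Finset.smul_sum, smul_sub]
    · intro i
      refine ⟨Pi.single i 1, ?_⟩
      rw [Finset.sum_eq_single i]
      · simp [Y_one]
      · intro j _ hj; simp [hj]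
      · simp
    · intro y hy
      have : y = 0 := by simpa [F] using hy
      exact ⟨0, by simp [this]⟩
    · intro i y hy
      have : y = 0 := by simpa [F] using hy
      exact ⟨0, by simp [this]⟩
  | succ n ih =>
    have hS := St_all x h (n + 2) (by omega)
    refine F_induction x
      (P := fun y => ∃ a : Fin 3 → K, y - ∑ k, a k • Y x (n + 1 + 1) k ∈ F K x (n + 1))
      ?_ ?_ ?_ ?_ ?_ ?_ hy
    · exact ⟨0, by simp⟩
    · rintro u v ⟨a, ha⟩ ⟨b, hb⟩
      refine ⟨a + b, ?_⟩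
      have := Submodule.add_mem _ ha hb
      convert this using 1
      simp only [Pi.add_apply, add_smul, Finset.sum_add_distrib]
      abel
    · rintro c u ⟨a, ha⟩
      refine ⟨c • a, ?_⟩
      have := Submodule.smul_mem _ c ha
      convert this using 1
      simp only [Pi.smul_apply, smul_eq_mul, mul_smul, Finset.smul_sum, smul_sub]
    · intro i
      refine ⟨0, ?_⟩
      simpa using x_mem (K := K) x i (n + 1) (by omega)
    · intro y hy
      refine ⟨0, ?_⟩
      simpa using hy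
    · intro i y hy
      obtain ⟨a, ha⟩ := ih hy
      -- `[x_i, y] ≡ ∑ a_k [x_i, Y_{n+1} k]`
      have hd : ⁅x i, y⁆ - ∑ k, a k • ⁅x i, Y x (n + 1) k⁆ ∈ F K x (n + 1) := by
        have := ad_mem x i ha
        rw [lie_sub, lie_sum] at this
        simpa only [lie_smul] using this
      have h0 : ⁅x i, Y x (n + 1) i⁆ ∈ F K x (n + 1) := by
        have := (hS 1 (n + 1) le_rfl (by omega) (by omega) i).2
        simpa [Y_one] using this
      have h1 : ⁅x i, Y x (n + 1) (i + 1)⁆ - Y x (n + 2) (i + 2) ∈ F K x (n + 1) := by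
        have := (hS 1 (n + 1) le_rfl (by omega) (by omega) (i + 2)).1
        rw [fin3a, fin3d, Y_one] at this
        exact this
      have h2 : ⁅x i, Y x (n + 1) (i + 2)⁆ + Y x (n + 2) (i + 1) ∈ F K x (n + 1) := by
        have := (hS (n + 1) 1 (by omega) le_rfl (by omega) (i + 1)).1
        rw [fin3b, fin3c, Y_one] at this
        have h' : -(⁅Y x (n + 1) (i + 2), x i⁆ - Y x (n + 2) (i + 1)) ∈ F K x (n + 1) :=
          Submodule.neg_mem _ this
        rw [← lie_skew]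
        convert h' using 1
        abel
      have hsum3 : ∀ (f : Fin 3 → L), ∑ k, f k = f i + f (i + 1) + f (i + 2) := by
        intro f
        rw [Fin.sum_univ_three]
        fin_cases i
        · rfl
        · show f 0 + f 1 + f 2 = f 1 + f 2 + f 0
          abel
        · show f 0 + f 1 + f 2 = f 2 + f 0 + f 1
          abel
      refine ⟨fun k => if k = i then 0 else if k = i + 1 then - a (i + 2) else a (i + 1), ?_⟩
      rw [hsum3] at hd ⊢
      have t1 : i + 1 ≠ i := (by decide : ∀ i : Fin 3, i + 1 ≠ i) i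
      have t2 : i + 2 ≠ i := (by decide : ∀ i : Fin 3, i + 2 ≠ i) i
      have t3 : i + 2 ≠ i + 1 := (by decide : ∀ i : Fin 3, i + 2 ≠ i + 1) i
      simp only [if_true, t1, t2, t3, if_false, zero_smul, zero_add, neg_smul]
      have k0 := Submodule.smul_mem _ (a i) h0
      have k1 := Submodule.smul_mem _ (a (i + 1)) h1
      have k2 := Submodule.smul_mem _ (a (i + 2)) h2
      have := Submodule.add_mem _ (Submodule.add_mem _ (Submodule.add_mem _ hd k0) k1) k2
      convert this using 1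
      simp only [smul_sub, smul_add]
      abel

omit [CharZero K] in
/-- the Lie subalgebra generated by the `x i` is the union of the `F n` -/
theorem lieSpan_iff (y : L) :
    y ∈ LieSubalgebra.lieSpan K L (Set.range x) ↔ ∃ n, y ∈ F K x n := by
  constructor
  · intro hy
    induction hy using LieSubalgebra.lieSpan_induction with
    | mem y hy => obtain ⟨i, rfl⟩ := hy; exact ⟨1, x_mem x i 1 le_rfl⟩
    | zero => exact ⟨0, Submodule.zero_mem _⟩
    | add u v _ _ hu hv =>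
      obtain ⟨m, hm⟩ := hu
      obtain ⟨n, hn⟩ := hv
      exact ⟨max m n, Submodule.add_mem _ (F_mono x (le_max_left _ _) hm)
        (F_mono x (le_max_right _ _) hn)⟩
    | smul c u _ hu =>
      obtain ⟨m, hm⟩ := hu
      exact ⟨m, Submodule.smul_mem _ c hm⟩
    | lie u v _ _ hu hv =>
      obtain ⟨m, hm⟩ := hu
      obtain ⟨n, hn⟩ := hv
      exact ⟨m + n, lie_mem x hm hn⟩
  · rintro ⟨n, hn⟩
    induction n generalizing y with
    | zero =>
      have : y = 0 := by simpa [F] using hn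
      rw [this]; exact LieSubalgebra.zero_mem _
    | succ n ih =>
      refine F_induction x (P := fun y => y ∈ LieSubalgebra.lieSpan K L (Set.range x))
        ?_ ?_ ?_ ?_ ?_ ?_ hn
      · exact LieSubalgebra.zero_mem _
      · intro a b ha hb; exact LieSubalgebra.add_mem _ ha hb
      · intro c a ha; exact LieSubalgebra.smul_mem _ c ha
      · intro i; exact LieSubalgebra.subset_lieSpan ⟨i, rfl⟩
      · intro y hy; exact ih y hy
      · intro i y hy
        exact LieSubalgebra.lie_mem _ (LieSubalgebra.subset_lieSpan ⟨i, rfl⟩) (ih y hy)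

end Pool.Agent.R893.LA
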